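import Pool.Agent.H45.Lib.Ts3997aac3.Q276.PL.Stm2

/-!
# Project PL, job CLN: class numbers of almost all real quadratic fields
-/

set_option autoImplicit false
set_option linter.all false

namespace Pool.Agent.Q149.PL

open Finset Filter NumberField Pool.Agent.H38R2.CG Pool.Agent.Q276.PL
open scoped Classical

noncomputable section

theorem isFund_dsc {d : ℕ} (h1 : 1 < d) (hs : Squarefree d) : IsFund (dsc d) := by
  unfold dsc IsFund
  split_ifs with h
  · exact ⟨h1, Or.inl ⟨h, hs⟩⟩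
  · refine ⟨by omega, Or.inr ⟨d, rfl, ?_, hs⟩⟩
    have h0 : d % 4 ≠ 0 := by
      intro h0
      have h2 : 2 * 2 ∣ d := by omega
      have h3 := hs 2 h2
      rw [Nat.isUnit_iff] at h3
      omega
    omega

theorem dsc_le (d : ℕ) : dsc d ≤ 4 * d := by
  unfold dsc
  split_ifs <;> omega

theorem le_dsc (d : ℕ) : d ≤ dsc d := by
  unfold dsc
  split_ifs <;> omega

theorem dsc_or (d : ℕ) : dsc d = d ∨ dsc d = 4 * d := by
  unfold dsc
  split_ifs
  · exact Or.inl rfl
  · exact Or.inr rfl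

theorem dsc_inj {d e : ℕ} (h : dsc d = dsc e) : d = e := by
  unfold dsc at h
  split_ifs at h <;> omega

/-- the main step -/
theorem good_of (hCNF : StmtCNF) (hREG : StmtREG) {δ δ' : ℝ} (h0 : 0 < δ') (h1 : δ' ≤ 1 / 4)
    (hδ : δ' ≤ δ) : ∃ X1 : ℕ, ∀ X : ℕ, X1 ≤ X → ∀ d : ℕ, d ≤ X → √(X : ℝ) < d → Squarefree d →
    ¬ SmallUnit (dsc d) (Real.exp (Real.log X ^ (3 / 2 - δ' / 2))) →
    Lone (dsc d) ≤ Real.log (dsc d) ^ (δ' / 4) → GoodC δ d := by
  have hev : ∀ᶠ X : ℕ in atTop, (2 : ℝ) ≤ Real.log X ^ (δ' / 4) := by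
    have h := ((tendsto_rpow_atTop (show 0 < δ' / 4 by positivity)).comp
      Real.tendsto_log_atTop).comp tendsto_natCast_atTop_atTop
    exact h.eventually_ge_atTop 2
  obtain ⟨X1, hX1⟩ := eventually_atTop.1 hev
  refine ⟨max X1 16, fun X hX d hdX hdr hsq hsu hlone K _ _ hrk hex => ?_⟩
  have hL2 := hX1 X ((le_max_left _ _).trans hX)
  have hX16 : 16 ≤ X := (le_max_right _ _).trans hX
  have hX16' : (16 : ℝ) ≤ X := by exact_mod_cast hX16
  have hsX : (4 : ℝ) ≤ √(X : ℝ) := by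
    rw [show (4 : ℝ) = √16 by rw [show (16 : ℝ) = 4 ^ 2 by norm_num]; simp]
    exact Real.sqrt_le_sqrt hX16'
  have hd4 : (4 : ℝ) < d := by linarith
  have hd4' : 4 < d := by exact_mod_cast hd4
  have hd1 : 1 < d := by omega
  set L : ℝ := Real.log X with hL
  have hlogd : 1 ≤ Real.log d := by
    rw [Real.le_log_iff_exp_le (by linarith)]
    linarith [Real.exp_one_lt_d9]
  have hdL : Real.log d ≤ L := Real.log_le_log (by linarith) (by exact_mod_cast hdX)
  have hL1 : 1 ≤ L := hlogd.trans hdL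
  have hD1 : (1 : ℝ) ≤ (dsc d : ℝ) := by
    have := le_dsc d
    exact_mod_cast (by omega : 1 ≤ dsc d)
  have hD4 : (dsc d : ℝ) ≤ 4 * d := by exact_mod_cast dsc_le d
  have hlogD0 : 0 ≤ Real.log (dsc d) := Real.log_nonneg hD1
  have hlogD : Real.log (dsc d) ≤ 2 * L := by
    have h2 : Real.log (dsc d) ≤ Real.log (4 * X) := by
      apply Real.log_le_log (by linarith)
      have : (d : ℝ) ≤ X := by exact_mod_cast hdX
      linarith
    have h3 : Real.log 4 ≤ L := Real.log_le_log (by norm_num) (by linarith)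
    rw [Real.log_mul (by norm_num) (by linarith)] at h2
    linarith
  have hsD : √(dsc d : ℝ) ≤ 2 * √(d : ℝ) := by
    have h2 : √(dsc d : ℝ) ≤ √(4 * d : ℝ) := Real.sqrt_le_sqrt hD4
    have h3 : √(4 * d : ℝ) = 2 * √(d : ℝ) := by
      rw [Real.sqrt_mul (by norm_num), show (4 : ℝ) = 2 ^ 2 by norm_num,
        Real.sqrt_sq (by norm_num)]
    linarith
  obtain ⟨t, u, ht, hu, hn, hR⟩ := hREG K d hd1 hsq hrk hex
  have hbig : L ^ (3 / 2 - δ' / 2) < Units.regulator K := by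
    rw [hR, Real.lt_log_iff_exp_lt (by positivity)]
    by_contra hcon
    exact hsu ⟨t, u, ht, hu, hn, not_lt.1 hcon⟩
  have hcnf := hCNF K d hd1 hsq hrk hex
  set h : ℝ := (classNumber K : ℝ) with hh
  have hh0 : 0 ≤ h := Nat.cast_nonneg _
  have hloneL : Lone (dsc d) ≤ L ^ (δ' / 2) := by
    refine hlone.trans ?_
    calc Real.log (dsc d) ^ (δ' / 4) ≤ (2 * L) ^ (δ' / 4) :=
          Real.rpow_le_rpow hlogD0 hlogD (by positivity)
      _ = 2 ^ (δ' / 4) * L ^ (δ' / 4) := Real.mul_rpow (by norm_num) (by linarith)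
      _ ≤ L ^ (δ' / 4) * L ^ (δ' / 4) := by
          refine mul_le_mul_of_nonneg_right ?_ (by positivity)
          calc (2 : ℝ) ^ (δ' / 4) ≤ 2 ^ (1 : ℝ) :=
                Real.rpow_le_rpow_of_exponent_le (by norm_num) (by linarith)
            _ = 2 := Real.rpow_one 2
            _ ≤ _ := hL2
      _ = L ^ (δ' / 2) := by
          rw [← Real.rpow_add (by linarith)]
          congr 1
          ring
  have hLpos : 0 < L := by linarith
  have hp1 : 0 < L ^ (δ' / 2) := Real.rpow_pos_of_pos hLpos _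
  have hsplit : L ^ (3 / 2 - δ' / 2) = L ^ (3 / 2 - δ') * L ^ (δ' / 2) := by
    rw [← Real.rpow_add hLpos]
    congr 1
    ring
  have hfin : h * L ^ (3 / 2 - δ') ≤ √(d : ℝ) := by
    have e1 : 2 * (L ^ (3 / 2 - δ') * L ^ (δ' / 2)) * h ≤ 2 * √(d : ℝ) * L ^ (δ' / 2) := by
      rw [← hsplit]
      calc 2 * L ^ (3 / 2 - δ' / 2) * h ≤ 2 * Units.regulator K * h := by
            refine mul_le_mul_of_nonneg_right ?_ hh0
            linarith
        _ = √(dsc d : ℝ) * Lone (dsc d) := hcnf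
        _ ≤ √(dsc d : ℝ) * L ^ (δ' / 2) :=
            mul_le_mul_of_nonneg_left hloneL (Real.sqrt_nonneg _)
        _ ≤ 2 * √(d : ℝ) * L ^ (δ' / 2) := mul_le_mul_of_nonneg_right hsD hp1.le
    have e2 : (2 * L ^ (δ' / 2)) * (h * L ^ (3 / 2 - δ')) ≤ (2 * L ^ (δ' / 2)) * √(d : ℝ) := by
      linarith
    exact le_of_mul_le_mul_left e2 (by positivity)
  show h ≤ √(d : ℝ) / Real.log d ^ (3 / 2 - δ)
  have hld0 : 0 < Real.log d := by linarith
  rw [le_div_iff₀ (Real.rpow_pos_of_pos hld0 _)]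
  refine le_trans (mul_le_mul_of_nonneg_left ?_ hh0) hfin
  calc Real.log d ^ (3 / 2 - δ) ≤ Real.log d ^ (3 / 2 - δ') :=
        Real.rpow_le_rpow_of_exponent_le hlogd (by linarith)
    _ ≤ L ^ (3 / 2 - δ') := Real.rpow_le_rpow (by linarith) hdL (by linarith)

/-- the count -/
theorem count_le (hRGB : StmtRGB) (hCNF : StmtCNF) (hREG : StmtREG) {δ δ' : ℝ} (h0 : 0 < δ')
    (h1 : δ' ≤ 1 / 4) (hδ : δ' ≤ δ) : ∃ (X1 : ℕ) (M : ℝ), ∀ X : ℕ, X1 ≤ X → ∀ P : ℕ → Prop,
    (((Finset.Icc 2 X).filter (fun d => Squarefree d ∧ P d ∧ ¬ GoodC δ d)).card : ℝ) ≤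
      √(X : ℝ) + M * X * Real.exp (-(Real.log X ^ (δ' / 2 / 8))) +
      (((Finset.Icc 2 (4 * X)).filter (fun D => IsFund D ∧ (∃ p : ℕ, P p ∧ (D = p ∨ D = 4 * p)) ∧
        Real.log D ^ (δ' / 4) < Lone D)).card : ℝ) := by
  obtain ⟨X1, hX1⟩ := good_of hCNF hREG h0 h1 hδ
  obtain ⟨M, hM⟩ := hRGB (δ' / 2) (by positivity) (by linarith)
  refine ⟨max X1 2, M, fun X hX P => ?_⟩
  have hX2 : 2 ≤ X := (le_max_right _ _).trans hX
  have hsub : (Finset.Icc 2 X).filter (fun d => Squarefree d ∧ P d ∧ ¬ GoodC δ d) ⊆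
      (Finset.Icc 1 ⌊√(X : ℝ)⌋₊ ∪ (Finset.Icc 2 X).filter (fun d => Squarefree d ∧
        SmallUnit (dsc d) (Real.exp (Real.log X ^ (3 / 2 - δ' / 2))))) ∪
      (Finset.Icc 2 X).filter (fun d => Squarefree d ∧ P d ∧
        Real.log (dsc d) ^ (δ' / 4) < Lone (dsc d)) := by
    intro d hd
    rw [mem_filter, Finset.mem_Icc] at hd
    obtain ⟨⟨hd2, hdX⟩, hsq, hP, hgood⟩ := hd
    rw [mem_union, mem_union]
    by_cases c1 : (d : ℝ) ≤ √(X : ℝ)
    · left; left
      rw [Finset.mem_Icc]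
      exact ⟨by omega, Nat.le_floor c1⟩
    · by_cases c2 : SmallUnit (dsc d) (Real.exp (Real.log X ^ (3 / 2 - δ' / 2)))
      · left; right
        rw [mem_filter, Finset.mem_Icc]
        exact ⟨⟨hd2, hdX⟩, hsq, c2⟩
      · right
        rw [mem_filter, Finset.mem_Icc]
        refine ⟨⟨hd2, hdX⟩, hsq, hP, ?_⟩
        by_contra c3
        exact hgood (hX1 X ((le_max_left _ _).trans hX) d hdX (not_le.1 c1) hsq c2 (not_lt.1 c3))
  have hinj : ((Finset.Icc 2 X).filter (fun d => Squarefree d ∧ P d ∧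
      Real.log (dsc d) ^ (δ' / 4) < Lone (dsc d))).card ≤
      ((Finset.Icc 2 (4 * X)).filter (fun D => IsFund D ∧ (∃ p : ℕ, P p ∧ (D = p ∨ D = 4 * p)) ∧
        Real.log D ^ (δ' / 4) < Lone D)).card := by
    refine Finset.card_le_card_of_injOn dsc ?_ (fun a _ b _ hab => dsc_inj hab)
    intro d hd
    rw [Finset.mem_coe, mem_filter, Finset.mem_Icc] at hd
    obtain ⟨⟨hd2, hdX⟩, hsq, hP, hl⟩ := hd
    rw [Finset.mem_coe, mem_filter, Finset.mem_Icc]
    have e1 := dsc_le d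
    have e2 := le_dsc d
    exact ⟨⟨by omega, by omega⟩, isFund_dsc (by omega) hsq, ⟨d, hP, dsc_or d⟩, hl⟩
  have hc := (card_le_card hsub).trans ((card_union_le _ _).trans
    (add_le_add (card_union_le _ _) hinj))
  have hc' : (((Finset.Icc 2 X).filter (fun d => Squarefree d ∧ P d ∧ ¬ GoodC δ d)).card : ℝ) ≤
      (((Finset.Icc 1 ⌊√(X : ℝ)⌋₊).card : ℝ) + (((Finset.Icc 2 X).filter (fun d => Squarefree d ∧
        SmallUnit (dsc d) (Real.exp (Real.log X ^ (3 / 2 - δ' / 2))))).card : ℝ)) +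
      (((Finset.Icc 2 (4 * X)).filter (fun D => IsFund D ∧ (∃ p : ℕ, P p ∧ (D = p ∨ D = 4 * p)) ∧
        Real.log D ^ (δ' / 4) < Lone D)).card : ℝ) := by exact_mod_cast hc
  refine hc'.trans (add_le_add (add_le_add ?_ (hM X hX2)) le_rfl)
  rw [Nat.card_Icc, Nat.add_sub_cancel]
  exact Nat.floor_le (Real.sqrt_nonneg _)

theorem exp_tend {s : ℝ} (hs : 0 < s) :
    Tendsto (fun X : ℕ => Real.log X * Real.exp (-(Real.log X ^ s))) atTop (nhds 0) := by
  have h1 := tendsto_rpow_mul_exp_neg_mul_atTop_nhds_zero (1 / s) 1 one_pos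
  have h2 : Tendsto (fun X : ℕ => Real.log X ^ s) atTop atTop :=
    ((tendsto_rpow_atTop hs).comp Real.tendsto_log_atTop).comp tendsto_natCast_atTop_atTop
  refine (h1.comp h2).congr' ?_
  filter_upwards [eventually_ge_atTop 1] with X hX
  have hl : 0 ≤ Real.log X := Real.log_nonneg (by exact_mod_cast hX)
  show (Real.log X ^ s) ^ (1 / s) * Real.exp (-1 * Real.log X ^ s) = _
  rw [← Real.rpow_mul hl, mul_one_div_cancel hs.ne', Real.rpow_one, neg_one_mul]

theorem exp_tend0 {s : ℝ} (hs : 0 < s) :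
    Tendsto (fun X : ℕ => Real.exp (-(Real.log X ^ s))) atTop (nhds 0) := by
  have h2 : Tendsto (fun X : ℕ => Real.log X ^ s) atTop atTop :=
    ((tendsto_rpow_atTop hs).comp Real.tendsto_log_atTop).comp tendsto_natCast_atTop_atTop
  exact Real.tendsto_exp_atBot.comp (tendsto_neg_atTop_atBot.comp h2)

theorem sqrt_log_tend : Tendsto (fun X : ℕ => √(X : ℝ) * Real.log X / X) atTop (nhds 0) := by
  have h1 := (isLittleO_log_rpow_atTop (r := 1 / 2) (by norm_num)).tendsto_div_nhds_zero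
  refine (h1.comp tendsto_natCast_atTop_atTop).congr' ?_
  filter_upwards [eventually_ge_atTop 1] with X hX
  have hX0 : (0 : ℝ) < X := by exact_mod_cast hX
  show Real.log X / (X : ℝ) ^ (1 / 2 : ℝ) = √(X : ℝ) * Real.log X / X
  rw [← Real.sqrt_eq_rpow]
  have hs : 0 < √(X : ℝ) := Real.sqrt_pos.2 hX0
  rw [div_eq_div_iff hs.ne' hX0.ne']
  have h2 : √(X : ℝ) * √(X : ℝ) = X := Real.mul_self_sqrt hX0.le
  rw [show √(X : ℝ) * Real.log X * √(X : ℝ) = (√(X : ℝ) * √(X : ℝ)) * Real.log X by ring, h2]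
  ring

theorem sqrt_tend : Tendsto (fun X : ℕ => √(X : ℝ) / X) atTop (nhds 0) := by
  have h1 : Tendsto (fun X : ℕ => (√(X : ℝ))⁻¹) atTop (nhds 0) :=
    (Real.tendsto_sqrt_atTop.comp tendsto_natCast_atTop_atTop).inv_tendsto_atTop
  refine h1.congr' ?_
  filter_upwards [eventually_ge_atTop 1] with X hX
  have hX0 : (0 : ℝ) < X := by exact_mod_cast hX
  have hs : 0 < √(X : ℝ) := Real.sqrt_pos.2 hX0
  have : √(X : ℝ) * √(X : ℝ) = X := Real.mul_self_sqrt hX0.le
  rw [inv_eq_one_div, div_eq_div_iff hs.ne' hX0.ne']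
  linarith

theorem four_tend : Tendsto (fun X : ℕ => 4 * X) atTop atTop :=
  tendsto_id.const_mul_atTop' (by norm_num)

/-- **JOB CLN**, first part -/
theorem cln (hRGB : StmtRGB) (hCNF : StmtCNF) (hREG : StmtREG) (hLSM : StmtLSM) : StmtCLN := by
  intro δ hδ
  set δ' : ℝ := min δ (1 / 4) with hδ'
  have h0 : 0 < δ' := lt_min hδ (by norm_num)
  obtain ⟨X1, M, hc⟩ := count_le hRGB hCNF hREG h0 (min_le_right _ _) (min_le_left δ (1 / 4))
  have hl := (hLSM (δ' / 4) (by positivity)).comp four_tend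
  have hlim : Tendsto (fun X : ℕ => √(X : ℝ) / X + M * Real.exp (-(Real.log X ^ (δ' / 2 / 8))) +
      4 * ((((Finset.Icc 2 (4 * X)).filter (fun D => IsFund D ∧
        Real.log D ^ (δ' / 4) < Lone D)).card : ℝ) / ((4 * X : ℕ) : ℝ))) atTop
      (nhds (0 + M * 0 + 4 * 0)) :=
    (sqrt_tend.add ((exp_tend0 (by positivity)).const_mul M)).add (hl.const_mul 4)
  rw [mul_zero, mul_zero, add_zero, add_zero] at hlim
  refine squeeze_zero' (Eventually.of_forall fun X => by positivity) ?_ hlim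
  filter_upwards [eventually_ge_atTop X1, eventually_ge_atTop 1] with X hX hX1
  have hX0 : (0 : ℝ) < X := by exact_mod_cast hX1
  have e1 := hc X hX (fun _ => True)
  have e2 : (((Finset.Icc 2 X).filter (fun d => Squarefree d ∧ ¬ GoodC δ d)).card : ℝ) ≤
      (((Finset.Icc 2 X).filter (fun d => Squarefree d ∧ True ∧ ¬ GoodC δ d)).card : ℝ) := by
    exact_mod_cast card_le_card fun d hd => by
      rw [mem_filter] at hd ⊢
      exact ⟨hd.1, hd.2.1, trivial, hd.2.2⟩
  have e3 : (((Finset.Icc 2 (4 * X)).filter (fun D => IsFund D ∧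
      (∃ p : ℕ, True ∧ (D = p ∨ D = 4 * p)) ∧ Real.log D ^ (δ' / 4) < Lone D)).card : ℝ) ≤
      (((Finset.Icc 2 (4 * X)).filter (fun D => IsFund D ∧
        Real.log D ^ (δ' / 4) < Lone D)).card : ℝ) := by
    exact_mod_cast card_le_card fun d hd => by
      rw [mem_filter] at hd ⊢
      exact ⟨hd.1, hd.2.1, hd.2.2.2⟩
  have e1' : (((Finset.Icc 2 X).filter (fun d => Squarefree d ∧ True ∧ ¬ GoodC δ d)).card : ℝ) ≤
      √(X : ℝ) + M * X * Real.exp (-(Real.log X ^ (δ' / 2 / 8))) +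
      (((Finset.Icc 2 (4 * X)).filter (fun D => IsFund D ∧
        Real.log D ^ (δ' / 4) < Lone D)).card : ℝ) := by
    refine le_trans ?_ (e1.trans (add_le_add le_rfl ?_))
    · convert le_refl _
    · refine le_trans ?_ e3
      convert le_refl _
  rw [div_le_iff₀ hX0]
  refine (e2.trans e1').trans (le_of_eq ?_)
  push_cast
  field_simp

/-- **JOB CLN**, second part -/
theorem clp (hRGB : StmtRGB) (hCNF : StmtCNF) (hREG : StmtREG) (hLSP : StmtLSP) : StmtCLP := by
  intro δ hδ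
  set δ' : ℝ := min δ (1 / 4) with hδ'
  have h0 : 0 < δ' := lt_min hδ (by norm_num)
  obtain ⟨X1, M, hc⟩ := count_le hRGB hCNF hREG h0 (min_le_right _ _) (min_le_left δ (1 / 4))
  have hl := (hLSP (δ' / 4) (by positivity)).comp four_tend
  have hlim : Tendsto (fun X : ℕ => 2 * (√(X : ℝ) * Real.log X / X +
      M * (Real.log X * Real.exp (-(Real.log X ^ (δ' / 2 / 8)))) +
      4 * ((((Finset.Icc 2 (4 * X)).filter (fun D => IsFund D ∧
        (∃ p : ℕ, p.Prime ∧ (D = p ∨ D = 4 * p)) ∧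
        Real.log D ^ (δ' / 4) < Lone D)).card : ℝ) * Real.log ((4 * X : ℕ) : ℝ) /
          ((4 * X : ℕ) : ℝ)))) atTop (nhds (2 * (0 + M * 0 + 4 * 0))) :=
    ((sqrt_log_tend.add ((exp_tend (by positivity)).const_mul M)).add (hl.const_mul 4)).const_mul 2
  rw [mul_zero, mul_zero, add_zero, add_zero, mul_zero] at hlim
  have hpi : ∀ᶠ X : ℕ in atTop, (X : ℝ) / (2 * Real.log X) ≤
      (((Finset.Icc 2 X).filter Nat.Prime).card : ℝ) := by
    have h1 : Tendsto (fun X : ℕ => Real.log ((X : ℝ) + 1) / ((X : ℝ) + 1)) atTop (nhds 0) := by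
      have h2 := (Real.isLittleO_log_id_atTop).tendsto_div_nhds_zero
      exact h2.comp (tendsto_atTop_add_const_right atTop (1 : ℝ) tendsto_natCast_atTop_atTop)
    filter_upwards [h1.eventually (gt_mem_nhds (show (0 : ℝ) < 1 / 20 by norm_num)),
      eventually_ge_atTop 2] with X hX hX2
    have hX2' : (2 : ℝ) ≤ X := by exact_mod_cast hX2
    have hl0 : 0 < Real.log X := Real.log_pos (by linarith)
    have hcard : ((Finset.Icc 2 X).filter Nat.Prime).card = Nat.primeCounting X := by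
      rw [Nat.primeCounting, Nat.primeCounting', Nat.count_eq_card_filter_range]
      congr 1
      ext p
      simp only [mem_filter, Finset.mem_Icc, Finset.mem_range]
      constructor
      · rintro ⟨⟨h1, h2⟩, h3⟩
        exact ⟨by omega, h3⟩
      · rintro ⟨h1, h3⟩
        exact ⟨⟨h3.two_le, by omega⟩, h3⟩
    rw [hcard]
    refine le_trans ?_ (Chebyshev.pi_ge X)
    rw [div_le_div_iff₀ (by positivity) hl0]
    rw [div_lt_iff₀ (by linarith)] at hX
    have h5 := Real.log_two_gt_d9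
    have h6 : (X : ℝ) / 2 ≤ X * Real.log 2 - Real.log (X + 1) := by nlinarith
    nlinarith
  refine squeeze_zero' (Eventually.of_forall fun X => by positivity) ?_ hlim
  filter_upwards [eventually_ge_atTop X1, eventually_ge_atTop 2, hpi] with X hX hX2 hpiX
  have hX2' : (2 : ℝ) ≤ X := by exact_mod_cast hX2
  have hX0 : (0 : ℝ) < X := by linarith
  have hl0 : 0 < Real.log X := Real.log_pos (by linarith)
  have e1 := hc X hX Nat.Prime
  have e2 : (((Finset.Icc 2 X).filter (fun p => p.Prime ∧ ¬ GoodC δ p)).card : ℝ) ≤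
      (((Finset.Icc 2 X).filter (fun d => Squarefree d ∧ d.Prime ∧ ¬ GoodC δ d)).card : ℝ) := by
    exact_mod_cast card_le_card fun d hd => by
      rw [mem_filter] at hd ⊢
      exact ⟨hd.1, (Nat.Prime.prime hd.2.1).squarefree, hd.2.1, hd.2.2⟩
  set A : ℝ := (((Finset.Icc 2 (4 * X)).filter (fun D => IsFund D ∧
        (∃ p : ℕ, p.Prime ∧ (D = p ∨ D = 4 * p)) ∧
        Real.log D ^ (δ' / 4) < Lone D)).card : ℝ) with hA
  have hA0 : 0 ≤ A := Nat.cast_nonneg _
  have e1' : (((Finset.Icc 2 X).filter (fun d => Squarefree d ∧ d.Prime ∧ ¬ GoodC δ d)).card : ℝ) ≤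
      √(X : ℝ) + M * X * Real.exp (-(Real.log X ^ (δ' / 2 / 8))) + A := by
    convert e1
  have hpos : (0 : ℝ) < X / (2 * Real.log X) := by positivity
  have hlog4 : Real.log X ≤ Real.log ((4 * X : ℕ) : ℝ) := by
    apply Real.log_le_log hX0
    push_cast
    linarith
  calc (((Finset.Icc 2 X).filter (fun p => p.Prime ∧ ¬ GoodC δ p)).card : ℝ) /
        ((Finset.Icc 2 X).filter Nat.Prime).card
      ≤ (√(X : ℝ) + M * X * Real.exp (-(Real.log X ^ (δ' / 2 / 8))) + A) /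
        (X / (2 * Real.log X)) :=
        div_le_div₀ (le_trans (Nat.cast_nonneg _) e1') (e2.trans e1') hpos hpiX
    _ = 2 * (√(X : ℝ) * Real.log X / X +
        M * (Real.log X * Real.exp (-(Real.log X ^ (δ' / 2 / 8)))) + A * Real.log X / X) := by
        field_simp
    _ ≤ _ := by
        refine mul_le_mul_of_nonneg_left (add_le_add le_rfl ?_) (by norm_num)
        have e4 : 4 * (A * Real.log ((4 * X : ℕ) : ℝ) / ((4 * X : ℕ) : ℝ)) =
            A * Real.log ((4 * X : ℕ) : ℝ) / X := by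
          rw [Nat.cast_mul]
          push_cast
          field_simp
        rw [e4]
        exact div_le_div_of_nonneg_right (mul_le_mul_of_nonneg_left hlog4 hA0) hX0.le

end

end Pool.Agent.Q149.PL
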